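import Pool.Agent.Run7.h527.TP.Ex
import Pool.Agent.Results.MP_c076ed_nt.MultiplicativeValues

/-!
# Uniform boundedness for all parameters near aliquot sums, cototients and arithmetic derivatives

The height `H(c)` of a rational number is the maximum of `|numerator|` and denominator. Let `g(m)` be the sum of the proper
divisors of `m`, the cototient `m - φ(m)`, the arithmetic derivative `m'` (with `p' = 1` for primes and Leibniz' rule), or any
positive combination `α m + β f(m)` with `f = σ`, `φ` or the arithmetic derivative. Let `G` have steps bounded below by a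
positive constant and growth at most `v^d`, for example `G(v) = α v^d`. For every degree `e ≥ 2` and `0 ≤ κ < τ ≤ 1` there is
a number `B`, which depends on `e`, `d`, `κ` and `τ` only, such that for all `m ≤ N` which have two prime factors `p ≠ q`, not
dividing `m / (p q) ≥ 2`, with `p q ≥ m^τ`, but at most `N^(1 - η)` of them, and for ALL rational numbers `c` with
`|H(c) - G (g m)| ≤ g(m)^κ` the map `z ^ e + c` has at most `B` rational preperiodic points. For small `τ` nearly all integers
`m` have such prime factors.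

Proof. Write `m = k p q`. Then `g(m) = a p q + b (p + q) + c` with integers `a ≠ 0`, `b`, `c` which depend on `k` only, and
`(a p + b) (a q + b) = a g(m) + b² - a c`. So for given `k ≤ N^(1 - τ)` every value is taken for at most `N^ε` pairs `p`, `q`
(the tool `Run7/h527/TP`), and the exceptional parameters are few by the starting theorem `FewExceptionalUnicritical`.
-/

set_option autoImplicit false

namespace Pool.Agent.Results.MP_c076ed_nt.AliquotSums

open Pool.Agent.N733.TG (Expanding expanding_pow)
open Pool.Agent.Results.MP_c076ed_nt.FewExceptionalUnicritical (preperiodic exceptional)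
open Pool.Agent.Results.MP_c076ed_nt.MultiplicativeValues (height height_le)
open Run7.h527.TP (Bil Two good aliquot cototient deriv sig comb)

/-- **Uniform boundedness near the values of functions which are bilinear in two large primes.** For all `e ≥ 2`, `d ≥ 1` and
`0 ≤ κ < τ ≤ 1` there is `B` such that the following holds. Let `g` be of the class `Bil`, let `G` have steps `≥ a > 0` and
growth at most `v^d`. There is `η > 0` such that for all large `N`, for all `m ≤ N` with `Two τ m` but at most `N^(1 - η)`,
and for ALL rational numbers `c` with `|H(c) - G (g m)| ≤ g(m)^κ` the map `z ^ e + c` has at most `B` rational preperiodic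
points. The sum of the proper divisors, the cototient, the arithmetic derivative and their positive combinations with the
identity are examples of such functions `g`. -/
theorem result :
    (∀ e : ℕ, 2 ≤ e → ∀ d κ τ : ℝ, 1 ≤ d → 0 ≤ κ → κ < τ → τ ≤ 1 → ∃ B : ℕ,
      ∀ g : ℕ → ℕ, Bil g → ∀ G : ℕ → ℝ, Expanding G d → ∃ η : ℝ, 0 < η ∧ ∃ N₀ : ℕ, ∀ N : ℕ, N₀ ≤ N →
      ({m : ℕ | 1 ≤ m ∧ m ≤ N ∧ Two τ m ∧ ¬ ∀ c : ℚ, |(height c : ℝ) - G (g m)| ≤ (g m : ℝ) ^ κ →
        (preperiodic e c).encard ≤ B}.ncard : ℝ) ≤ (N : ℝ) ^ (1 - η)) ∧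
    (Bil aliquot ∧ Bil cototient ∧ Bil deriv ∧
      (∀ α β : ℤ, (∀ m : ℕ, 2 ≤ m → 0 < α * m + β * sig m) → Bil (comb α β sig)) ∧
      (∀ α β : ℤ, (∀ m : ℕ, 2 ≤ m → 0 < α * m + β * Nat.totient m) → Bil (comb α β Nat.totient)) ∧
      ∀ α β : ℤ, (∀ m : ℕ, 2 ≤ m → 0 < α * m + β * deriv m) → Bil (comb α β deriv)) ∧
    ∀ α d : ℝ, 0 < α → 1 ≤ d → Expanding (fun v => α * (v : ℝ) ^ d) d := by
  refine ⟨fun e he d κ τ hd hκ hκ1 hτ => ?_, Run7.h527.TP.examples, fun α d hα hd => expanding_pow hα hd⟩
  obtain ⟨s, hs⟩ : ∃ s : ℝ, s = (τ - κ) / (2 * d) := ⟨_, rfl⟩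
  have hs0 : 0 < s := by
    rw [hs]
    exact div_pos (by linarith) (by linarith)
  have hds : d * s + κ < τ := by
    have h1 : d * s = (τ - κ) / 2 := by
      rw [hs]
      field_simp
    rw [h1]
    linarith
  obtain ⟨B, C, h⟩ := FewExceptionalUnicritical.result e he s hs0
  refine ⟨B, fun g hg G hG => ?_⟩
  obtain ⟨η, hη, N₀, hN₀⟩ := good (fun _ : ℚ => True) (fun c => (preperiodic e c).encard ≤ B)
    (fun c => (height c : ℝ)) hg hG hs0.le hκ hds hτ (fun ε hε => by
      refine ⟨max C 0, fun X hX => ?_⟩
      have hset : {t : ℚ | (True ∧ ¬ (preperiodic e t).encard ≤ B) ∧ (height t : ℝ) ≤ X} = exceptional e B X := by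
        ext c
        constructor
        · rintro ⟨⟨_, h1⟩, h2⟩
          obtain ⟨h5, h6⟩ := (height_le c X).1 h2
          exact ⟨h5, h6, not_le.1 h1⟩
        · rintro ⟨h5, h6, h1⟩
          exact ⟨⟨trivial, not_le.2 h1⟩, (height_le c X).2 ⟨h5, h6⟩⟩
      rw [hset]
      obtain ⟨h5, h6⟩ := h X hX
      refine ⟨h5, h6.trans ?_⟩
      calc C * X ^ s ≤ max C 0 * X ^ s := mul_le_mul_of_nonneg_right (le_max_left _ _) (by positivity)
        _ ≤ max C 0 * X ^ (s + ε) := by
            apply mul_le_mul_of_nonneg_left _ (le_max_right _ _)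
            exact Real.rpow_le_rpow_of_exponent_le hX (by linarith))
  refine ⟨η, hη, N₀, fun N hN => le_trans (le_of_eq ?_) (hN₀ N hN)⟩
  congr 2
  ext m
  simp only [Set.mem_ofPred_eq, forall_true_left]

end Pool.Agent.Results.MP_c076ed_nt.AliquotSums
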