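import Pool.Agent.Run7.h702.CT.C
import Pool.Agent.Results.MP_c076ed_nt.MultiplicativeValues

/-!
# Uniform boundedness for all parameters near ALL the terms of almost every Collatz trajectory

The height `H(c)` of a rational number is the maximum of `|numerator|` and denominator. Let `v` run through the terms of the
trajectory of `m` under the Collatz map (`n / 2`, `3 n + 1`) before its first value smaller than `Y`. Let `α > 0`, `d ≥ 1` and
`κ < 1`. For every degree `e ≥ 2` there is a number `B`, which depends on `e`, `d` and `κ` only, and there is `η > 0` such that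
for every `B'` there is `K` such that for all `Y ≥ 2` and `N`, for all `m ≤ N` but at most `K N / (log Y) ^ B'`: the trajectory
has a value smaller than `Y`, and for EVERY term `v` before it, ALL `1 ≤ a ≤ v ^ η` and ALL rational numbers `c` with
`|H(c) - a α v ^ d| ≤ v ^ (κ + η)` the map `z ^ e + c` has at most `B` rational preperiodic points. More generally `G v` takes
the place of `α v ^ d`, where `G` is any function with steps bounded below by a positive constant and growth at most `v ^ d`.

So if `F` tends to infinity, however slowly, then for almost every `m` this holds for all the terms of the trajectory of `m`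
down to its first value smaller than `F m`.

The terms of the trajectory of a random integer are not distributed like random integers of their size. The tool is the
avoidance of thin sets by all the terms of almost every trajectory (starting theorem; Tao's theorem in natural density), in the
form of `Run7/h702/CT` (multiples and windows).
-/

set_option autoImplicit false

namespace Pool.Agent.Results.MP_c076ed_nt.CollatzTerms

open Filter Topology
open Pool.Agent.Results.MP_c076ed_nt.FewExceptionalUnicritical (preperiodic exceptional)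
open Pool.Agent.Results.MP_c076ed_nt.MultiplicativeValues (height height_le)

/-- The Collatz map. -/
def collatz (n : ℕ) : ℕ := if n % 2 = 0 then n / 2 else 3 * n + 1

/-- The trajectory of `m` takes a value smaller than `Y`, and EVERY term `v` before it has the property `P`. -/
def AllTerms (P : ℕ → Prop) (Y : ℝ) (m : ℕ) : Prop :=
  ∃ k : ℕ, ((collatz^[k] m : ℕ) : ℝ) < Y ∧ ∀ j < k, P (collatz^[j] m)

/-- `P` holds for all the terms of almost every trajectory: (1) for every `B` there is `K` such that `AllTerms P Y m` holds, for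
all `Y ≥ 2` and `N`, for all the `m ∈ [1, N]` but at most `K N / (log Y)^B`; (2) for every function `F` which tends to infinity
the density of the `m` with `AllTerms P (F m) m` is `1`. -/
def OnAllTerms (P : ℕ → Prop) : Prop :=
  (∀ B : ℕ, ∃ K : ℝ, ∀ Y : ℝ, 2 ≤ Y → ∀ N : ℕ,
    (Set.ncard {m : ℕ | 1 ≤ m ∧ m ≤ N ∧ ¬ AllTerms P Y m} : ℝ) ≤ K * N / Real.log Y ^ B) ∧
  ∀ F : ℕ → ℝ, Tendsto F atTop atTop →
    Tendsto (fun N : ℕ => (Set.ncard {m : ℕ | 1 ≤ m ∧ m ≤ N ∧ AllTerms P (F m) m} : ℝ) / N) atTop (𝓝 1)

/-- The steps of `G` are at least a positive constant, and `G` grows at most like `v ^ d`, `d ≥ 1`. -/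
structure Expanding (G : ℕ → ℝ) (d : ℝ) : Prop where
  one_le : 1 ≤ d
  step : ∃ a : ℝ, 0 < a ∧ ∀ v : ℕ, 1 ≤ v → a ≤ G (v + 1) - G v
  growth : ∃ C : ℝ, ∀ v : ℕ, 1 ≤ v → G v ≤ C * (v : ℝ) ^ d

/-- `x` is near one of the small multiples of `G v`. -/
def Near (G : ℕ → ℝ) (κ η : ℝ) (v : ℕ) (x : ℝ) : Prop :=
  ∃ a : ℕ, 1 ≤ a ∧ (a : ℝ) ≤ (v : ℝ) ^ η ∧ |x - a * G v| ≤ (v : ℝ) ^ (κ + η)

theorem ex_of {G : ℕ → ℝ} {d : ℝ} (h : Expanding G d) : Pool.Agent.N733.TG.Expanding G d := ⟨h.one_le, h.step, h.growth⟩

theorem ex_pow {a d : ℝ} (ha : 0 < a) (hd : 1 ≤ d) : Expanding (fun v => a * (v : ℝ) ^ d) d := by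
  obtain ⟨h1, h2, h3⟩ := Pool.Agent.N733.TG.expanding_pow ha hd
  exact ⟨h1, h2, h3⟩

theorem on_of {P : ℕ → Prop} (h : Run7.h702.CT.OnAllTerms P) : OnAllTerms P := h

/-- **Uniform boundedness near all the terms of almost every Collatz trajectory.** For all `e ≥ 2`, `d ≥ 1` and `0 ≤ κ < 1`
there are `B` and `η > 0` such that for all expanding `G` of order `d` the following holds for all the terms `v` of almost every
trajectory: ALL maps `z ^ e + c`, `c` rational with a height near a small multiple of `G v`, have at most `B` rational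
preperiodic points. -/
theorem result :
    (∀ e : ℕ, 2 ≤ e → ∀ d κ : ℝ, 1 ≤ d → 0 ≤ κ → κ < 1 → ∃ B : ℕ, ∀ G : ℕ → ℝ, Expanding G d → ∃ η : ℝ, 0 < η ∧
      OnAllTerms (fun v => ∀ c : ℚ, Near G κ η v (height c : ℝ) → (preperiodic e c).encard ≤ B)) ∧
    ∀ α d : ℝ, 0 < α → 1 ≤ d → Expanding (fun v => α * (v : ℝ) ^ d) d := by
  refine ⟨fun e he d κ hd hκ hκ1 => ?_, fun α d hα hd => ex_pow hα hd⟩
  obtain ⟨s, hs⟩ : ∃ s : ℝ, s = (1 - κ) / (2 * d) := ⟨_, rfl⟩
  have hs0 : 0 < s := by
    rw [hs]
    exact div_pos (by linarith) (by linarith)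
  have hds : d * s + κ < 1 := by
    have h1 : d * s = (1 - κ) / 2 := by
      rw [hs]
      field_simp
    rw [h1]
    linarith
  obtain ⟨B, C, h⟩ := FewExceptionalUnicritical.result e he s hs0
  refine ⟨B, fun G hG => ?_⟩
  obtain ⟨η, hη, h2⟩ := Run7.h702.CT.good (fun _ : ℚ => True) (fun c => (preperiodic e c).encard ≤ B)
    (fun c => (height c : ℝ)) (ex_of hG) hs0.le hκ hds (fun ε hε => by
      refine ⟨max C 0, fun X hX => ?_⟩
      have hset : {t : ℚ | (True ∧ ¬ (preperiodic e t).encard ≤ B) ∧ (height t : ℝ) ≤ X} = exceptional e B X := by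
        ext c
        constructor
        · rintro ⟨⟨_, h1⟩, h2⟩
          obtain ⟨h5, h6⟩ := (height_le c X).1 h2
          exact ⟨h5, h6, not_le.1 h1⟩
        · rintro ⟨h5, h6, h1⟩
          exact ⟨⟨trivial, not_le.2 h1⟩, (height_le c X).2 ⟨h5, h6⟩⟩
      rw [hset]
      obtain ⟨h5, h6⟩ := h X hX
      refine ⟨h5, h6.trans ?_⟩
      calc C * X ^ s ≤ max C 0 * X ^ s := mul_le_mul_of_nonneg_right (le_max_left _ _) (by positivity)
        _ ≤ max C 0 * X ^ (s + ε) := by
            apply mul_le_mul_of_nonneg_left _ (le_max_right _ _)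
            exact Real.rpow_le_rpow_of_exponent_le hX (by linarith))
  refine ⟨η, hη, on_of (h2.imp (fun v hv c hN => ?_))⟩
  obtain ⟨a, ha1, ha2, ha3⟩ := hN
  exact hv a ha1 ha2 c trivial ha3

end Pool.Agent.Results.MP_c076ed_nt.CollatzTerms
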