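import Pool.Agent.Run7.h316.DN.UB

/-!
# Rational maps (endomorphisms of `ℙ^N`) with prime, equidistributed, metric or random coefficients have no
# preperiodic points of small degree

Let `k` be a number field, `N ≥ 1` and `d ≥ 2` (`k = ℚ`, `N = 1`: rational functions of degree `d` over `ℚ`).
100 % of the endomorphisms of `ℙ^N` of degree `d` over `k`, in all the families of coefficient vectors below,
have NO preperiodic points in `ℙ^N(K)` for all number fields `K` containing `k` with `[K : k] < d`; in
particular `#Pre(f, k) = 0 ≤ C(d)`. For `N = 1` and `d = 2` this is sharp: every map has points of period two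
over a quadratic extension, and fixed points of degree at most `d + 1`.

Let `c w`, `w ∈ Ω`, be a family of integral vectors, the coordinates of the coefficients of `N + 1` forms of
degree `d` in `N + 1` variables over the ring of integers of `k`, and `S M ⊂ Ω` finite sets; `Usually`: the
proportion of the `w ∈ S M` for which `NoPreperiodicPoints` does not hold for `c w` tends to zero, `M → ∞`. The
property `Usually` is fully robust (`Pool.Agent.Run7.h316.DN.FullyRobust`):

(1) All fully dominated families have it: there are `C₀`, `A`, `M₀` such that for all `q` prime to `M₀` at most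
the proportion `C₀ (q / φ(q)) ^ A q ^ (-n) + o(1)` of the `c w`, `w ∈ S M`, is in a given class modulo `q`.
(All equidistributed sequences, along arbitrary sets of times, are fully dominated, and all their subfamilies
of positive lower density.)
(2) - (4) Metric sequences: `(⌊f_{i,l}(x_i)⌋)_i` for Koksma sequences `f_{i,0}, f_{i,1}, …`,
`(⌊a_{i,l} x_i⌋)_i` for arbitrary sequences of different integers (or of real numbers with a gap) and
`(⌊ξ_i x_i ^ (k_l)⌋)_i`, for almost all `x`.
(5) Random orbits of groups of integral matrices of determinant one which generate `SL(ℤ/q)` for all `q`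
prime to some number (all Zariski dense groups, possibly of infinite index).
(6) Generalised polynomials `(⌊∑_t a_{i,t} l ^ t⌋)_i` at the integers and at the primes `l` of `(M, 2M]`.
(7) PRIME COEFFICIENTS: the proportion of the maps all of whose coefficients are prime numbers `≤ M` which
have a preperiodic point of degree less than `d` tends to zero.

Proof. The theorem for all abstract notions of density of helper938 (`Pool.Agent.N938.TD.final_free`, after
the project ND of helper275, with the contributions listed there; the theorem for boxes of coefficients is the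
starting file `MP_13bc7b_nt.NoLowDegreePoints`) has three hypotheses on the density: sets given by the
divisibility of a polynomial by a large prime have small density, sets given by the divisibility by a high
power of a prime have small density, and thin sets have density zero (Hilbert's irreducibility theorem). They
are shown here for all fully dominated families (`Pool.Agent.Run7.h316.DN.denF`): thin sets are VERY null
(`Pool.Agent.Run7.h316.DN.hit_very`), i.e. for infinitely many primes `p` the proportion of the classes modulo
`p` without elements of the set is at least `1 / C`, which are avoided by all dominated families. Vectors of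
primes are fully dominated by the prime number theorem for arithmetic progressions (helper923). The pronull
sets are those of helper891 (`Pool.Agent.N891.OR`, with `Pool.Agent.N455.HT`, helper455); metric sequences:
`Pool.Agent.N24.KM` (helpers 24, 344, 617, 199, 764, 432, 286); random orbits: `Pool.Agent.N24.RW` (helpers
24, 123, 195, 300, 543, 765); generalised polynomials: `Pool.Agent.N666.TM` (helper666);
`Pool.Agent.N918.EQ` (helper918).
-/

set_option autoImplicit false

open MvPolynomial NumberField
open Pool.Agent.Run7.h316.DN (FullyRobust FullNull)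

namespace Pool.Agent.Results.MP_c076ed_nt.NoLowDegreePrimeCoefficients

/-- The self-map of `K^(N+1)` given by forms `F` with coefficients in the ring of integers of `k`. -/
noncomputable def selfMap {k : Type} [Field k] [NumberField k] (K : Type) [Field K] [Algebra k K]
    {N : ℕ} (F : Fin (N + 1) → MvPolynomial (Fin (N + 1)) (𝓞 k)) (x : Fin (N + 1) → K) :
    Fin (N + 1) → K :=
  fun i => eval x (map ((algebraMap k K).comp (algebraMap (𝓞 k) k)) (F i))

/-- `F` defines an endomorphism of `P^N` over `k`, and it has no preperiodic point in `P^N(K)` for
all number fields `K` containing `k` with `[K : k] < D`. -/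
def NoPreperiodicPoints {k : Type} [Field k] [NumberField k] {N : ℕ} (D : ℕ)
    (F : Fin (N + 1) → MvPolynomial (Fin (N + 1)) (𝓞 k)) : Prop :=
  (∀ x : Fin (N + 1) → AlgebraicClosure k, selfMap (AlgebraicClosure k) F x = 0 → x = 0) ∧
    ∀ (K : Type) [Field K] [NumberField K] [Algebra k K], Module.finrank k K < D →
      ∀ x : Fin (N + 1) → K, x ≠ 0 → ¬ ∃ m n : ℕ, m < n ∧ ∃ c : K, c ≠ 0 ∧
        (selfMap K F)^[n] x = c • (selfMap K F)^[m] x

/-- The exponent vectors of degree `d` in `N + 1` variables. -/
abbrev Exps (N d : ℕ) : Type := {κ : Fin (N + 1) → Fin (d + 1) // ∑ i, (κ i : ℕ) = d}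

/-- The system of `N + 1` forms of degree `d` in `N + 1` variables over the ring of integers of `k`
whose coefficients have the coordinates `c` with respect to the integral basis `ω`. -/
noncomputable def system {k : Type} [Field k] [NumberField k] {J : Type} [Fintype J]
    (ω : Module.Basis J ℤ (𝓞 k)) {N d : ℕ} (c : (Fin (N + 1) × Exps N d) × J → ℤ) :
    Fin (N + 1) → MvPolynomial (Fin (N + 1)) (𝓞 k) :=
  fun i => ∑ κ : Exps N d, monomial (Finsupp.equivFunOnFinite.symm fun l => (κ.1 l : ℕ))
    (∑ j, (c ((i, κ), j) : 𝓞 k) * ω j)

/-- The proportion of the `w` in `S M` for which the system with the coefficient vector `c w` does not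
define an endomorphism of `ℙ^N`, or has a preperiodic point in `ℙ^N(K)` for some number field `K` containing
`k` with `[K : k] < d`, tends to zero, `M → ∞`. -/
def Usually {k : Type} [Field k] [NumberField k] {J : Type} [Fintype J]
    (ω : Module.Basis J ℤ (𝓞 k)) (N d : ℕ) (Ω : Type) (S : ℕ → Finset Ω)
    (c : Ω → (Fin (N + 1) × Exps N d) × J → ℤ) : Prop :=
  ∀ ε : ℝ, 0 < ε → ∃ M₀ : ℕ, ∀ M : ℕ, M₀ ≤ M →
    (({w : Ω | w ∈ S M ∧ ¬ NoPreperiodicPoints d (system ω (c w))}.ncard : ℕ) : ℝ) ≤
      ε * (S M).card

theorem exps_nonempty (N d : ℕ) : Nonempty (Exps N d) :=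
  ⟨⟨Pi.single 0 (Fin.last d), by
    rw [Finset.sum_eq_single (0 : Fin (N + 1))]
    · simp
    · intro i _ hi
      simp [Pi.single_eq_of_ne hi]
    · intro h
      exact absurd (Finset.mem_univ _) h⟩⟩

theorem system_eq {k : Type} [Field k] [NumberField k] {J : Type} [Fintype J]
    (ω : Module.Basis J ℤ (𝓞 k)) {N d : ℕ} (c : (Fin (N + 1) × Exps N d) × J → ℤ) :
    system ω c = Pool.Agent.W275.UB.Ph ω c := by
  funext i
  refine Finset.sum_congr rfl fun κ _ => ?_
  congr 1
  exact Finset.sum_congr rfl fun j _ => mul_comm _ _

/-- **Endomorphisms with prime, equidistributed, metric or random coefficients have no preperiodic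
points of small degree.** -/
theorem result (N d : ℕ) (hN : 1 ≤ N) (hd : 2 ≤ d) (k : Type) [Field k] [NumberField k]
    (J : Type) [Fintype J] [DecidableEq J] (ω : Module.Basis J ℤ (𝓞 k)) :
    FullyRobust (Usually ω N d) := by
  have key : FullNull {c : (Fin (N + 1) × Exps N d) × J → ℤ |
      ¬ NoPreperiodicPoints d (system ω c)} := by
    refine (Pool.Agent.Run7.h316.DN.UB.full_free N d hN hd (𝓞 k) J ω).mono ?_
    intro c hc hB
    apply hc
    rw [system_eq]
    refine ⟨fun x hx => ?_, fun K _ _ _ hK x hx => ?_⟩
    · exact hB.1 (AlgebraicClosure k)
        ((algebraMap k (AlgebraicClosure k)).comp (algebraMap (𝓞 k) k)) x hx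
    · apply hB.2 K ((algebraMap k K).comp (algebraMap (𝓞 k) k)) ?_ x hx
      have h1 : Module.finrank ℚ k = Fintype.card J := by
        rw [← RingOfIntegers.rank k, Module.finrank_eq_card_basis ω]
      rw [← Module.finrank_mul_finrank ℚ k K, h1, mul_comm]
      exact Nat.mul_lt_mul_of_pos_right hK (by rw [← h1]; exact Module.finrank_pos)
  obtain ⟨j0⟩ : Nonempty J := ω.index_nonempty
  have hne : Nonempty ((Fin (N + 1) × Exps N d) × J) := by
    obtain ⟨e0⟩ := exps_nonempty N d
    exact ⟨((0, e0), j0)⟩
  exact Pool.Agent.Run7.h316.DN.fullyRobust_all (I := Unit)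
    (fun _ => {c : (Fin (N + 1) × Exps N d) × J → ℤ | ¬ NoPreperiodicPoints d (system ω c)})
    (fun _ => key) (Usually ω N d) (fun Ω S c h ε hε => h () ε hε)

end Pool.Agent.Results.MP_c076ed_nt.NoLowDegreePrimeCoefficients
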