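import Pool.Agent.Run7.h823.WF.LG
import Pool.Agent.Run7.h823.WF.Ex
import Pool.Agent.TH377.Dyn.Rat

/-!
# MP_c076ed_nt: the preperiodic points of rational maps with coefficients in sparse families of vectors of residues: the
# first `m ^ ε` terms of linear recurrences modulo `m`

For a number field `K` with an integral basis `ω_0, …, ω_{m-1}` consider the vectors of integers of `K`

  `b, a_0, ..., a_d`,  each of them of the form `∑_j v_{i j} ω_j`,

where the integral vector `v = c₀ + y_i` with `(d + 2) m` coordinates runs through an arbitrary family `y_i`, `i ∈ s`, of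
vectors of residues modulo an integer `q` (represented by the least residues) whose Fourier coefficients at the nonzero
frequencies are at most `q ^ (-β)` times their number, `q` large.

We consider the rational maps

  `f(x) = F(x) / (b G(x))`,  `F = a_0 + a_1 x + ... + a_d x^d`,  `deg G < d`.

For all but `ε |s|` members of the family the following holds for ALL polynomials `G ≠ 0` over `O_K` of degree less than
`d`, whose leading coefficient divides a power of `D`: `f` has degree `d`, and for ALL number fields `L ⊇ K` whose degree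
over `K` is not divisible by `d` the preperiodic points of `f` in `ℙ¹(L)` are exactly `∞` and the zeros of `G` in `L`. In
particular `f` has at most `d` preperiodic points in `ℙ¹(L)`.

The family can be very sparse: examples (of vectors with `r` coordinates) are

* the values `(u_1(n), …, u_r(n))`, `n < N`, of `r` linear recurrences modulo a prime `m` with linearly independent vectors
  of coefficients, as soon as `N ≥ m ^ ε` and the roots and their quotients have orders `≥ m ^ ε`;
* the vectors `(x_1 b_1 ^ n, …, x_r b_r ^ n)`, `n < N`, `N ≥ m ^ ε`, for fixed different integers `b_j ≥ 2` and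
  all `x_j ≠ 0`, modulo all but `C X ^ ε` of the primes `m ≤ X`.

In these examples only `m ^ ε` of the `m ^ r` vectors of the box occur.

From Mathlib: `ZMod.stdAddChar`: the additive character `j ↦ exp (2 π i j / q)` of the integers modulo `q`; `ZMod.val`: the
least residue.

In the starting result on these maps (`RandomOrbitMaps`) the coefficient vectors run through random orbits of thin groups.

Proof: if a prime of `K` divides `b` exactly once and not `D` and `F` is irreducible of degree `d` modulo it, then `f` has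
this property for all `G` (starting library `TH377.Dyn.Rat`); Turán's sieve (after helper692 and helper407); families with small Fourier coefficients are well distributed modulo all integers up to a power of `q`; the Fourier
coefficients of short recurrences are estimated by the method of Bourgain, Glibichuk and Konyagin
(`Pool.Agent.Run7.h823.BK`).
-/

set_option autoImplicit false

namespace Pool.Agent.Results.MP_c076ed_nt.ResidueVectors

open Polynomial NumberField Finset

/-- The Fourier coefficients of the vectors of residues `y i`, `i ∈ s`, modulo `q` at the nonzero frequencies are at most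
`η` times the number of the vectors: `|∑ i ∈ s, e(h·y_i / q)| ≤ η |s|` for all vectors `h ≠ 0` modulo `q`. -/
def Flat {τ ι : Type} [Fintype ι] (q : ℕ) [NeZero q] (η : ℝ) (s : Finset τ) (y : τ → ι → ZMod q) : Prop :=
  ∀ h : ι → ZMod q, h ≠ 0 → ‖∑ i ∈ s, (ZMod.stdAddChar (∑ j, h j * y i j) : ℂ)‖ ≤ η * s.card

/-- The integral vector `c₀ + y_i`, with the least residues `0 ≤ y_i < q`. -/
def vec {τ ι : Type} {q : ℕ} (y : τ → ι → ZMod q) (c₀ : ι → ℤ) (i : τ) (j : ι) : ℤ := c₀ j + ((y i j).val : ℕ)

/-- The integer `∑ c_(i,j) ω_j` of `K`, `i = 0, ..., d + 1`. -/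
noncomputable def entry {K : Type} [Field K] {m d : ℕ} (ω : Module.Basis (Fin m) ℤ (𝓞 K))
    (c : Fin (d + 2) × Fin m → ℤ) (i : Fin (d + 2)) : 𝓞 K :=
  ∑ j, c (i, j) • ω j

/-- The polynomial `F = a_0 + a_1 x + ... + a_d x^d` over `O_K`, where `a_i` is the entry `i + 1`. -/
noncomputable def numerator {K : Type} [Field K] {m d : ℕ} (ω : Module.Basis (Fin m) ℤ (𝓞 K))
    (c : Fin (d + 2) × Fin m → ℤ) : (𝓞 K)[X] :=
  ∑ i : Fin (d + 1), C (entry ω c i.succ) * X ^ (i : ℕ)

/-- The self-map `x ↦ F(x) / (b G(x))` of `ℙ¹(L) = L ∪ {∞}`, where `∞ = none`, for polynomials `F` and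
`G` with `deg G < deg F`, so that `∞` is a fixed point. -/
noncomputable def ratMap {L : Type} [Field L] (F G : L[X]) (b : L) : Option L → Option L
  | none => none
  | some x => open Classical in if G.eval x = 0 then none else some (F.eval x / (b * G.eval x))

/-- The vector `c` has the following property: `b ≠ 0`, `F` has degree `d`, and for all polynomials
`G ≠ 0` over `O_K` of degree less than `d`, whose leading coefficient divides a power of `D`, the
polynomials `F` and `G` are coprime over `K`, so that `f = F / (b G)` has degree `d`, and for all number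
fields `L ⊇ K` whose degree over `K` is not divisible by `d` the points with a finite orbit under `f` in
`ℙ¹(L)` are exactly `∞` and the zeros of `G`. -/
def Exact {K : Type} [Field K] {m d : ℕ} (ω : Module.Basis (Fin m) ℤ (𝓞 K)) (D : ℕ)
    (c : Fin (d + 2) × Fin m → ℤ) : Prop :=
  entry ω c 0 ≠ 0 ∧ (numerator ω c).natDegree = d ∧
    ∀ G : (𝓞 K)[X], G ≠ 0 → G.natDegree < d → (∃ k : ℕ, G.leadingCoeff ∣ (D : 𝓞 K) ^ k) →
      IsCoprime ((numerator ω c).map (algebraMap (𝓞 K) K)) (G.map (algebraMap (𝓞 K) K)) ∧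
      ∀ (L : Type) [Field L] [NumberField L] [Algebra K L], ¬ d ∣ Module.finrank K L →
        ∀ P : Option L, (Set.range fun n : ℕ => (ratMap ((numerator ω c).map (algebraMap (𝓞 K) L))
          (G.map (algebraMap (𝓞 K) L)) (algebraMap (𝓞 K) L (entry ω c 0)))^[n] P).Finite ↔
            P = none ∨ ∃ x : L, P = some x ∧ (G.map (algebraMap (𝓞 K) L)).eval x = 0

section proof

open IsDedekindDomain Pool.Agent.TH377.Dyn Pool.Agent.TH377.Sup
open Pool.Agent.Run7.h823.WF.LG (LocGood)

theorem numerator_eq {K : Type} [Field K] {m d : ℕ} (ω : Module.Basis (Fin m) ℤ (𝓞 K))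
    (c : Fin (d + 2) × Fin m → ℤ) : numerator ω c = num (Pool.Agent.N692.TS.vec ω d c) := rfl

theorem ratMap_eq {L : Type} [Field L] (F G : L[X]) (b : L) : ratMap F G b = rat F G b := by
  funext P
  cases P <;> rfl

theorem iterate_none {L : Type} [Field L] (F G : L[X]) (b : L) (n : ℕ) :
    (rat F G b)^[n] none = none := by
  induction n with
  | zero => rfl
  | succ n ih => rw [Function.iterate_succ_apply', ih]; rfl

theorem exact_of_good {K : Type} [Field K] [NumberField K] {m d : ℕ}
    (ω : Module.Basis (Fin m) ℤ (𝓞 K)) (D : ℕ) (hD : 0 < D) (c : Fin (d + 2) × Fin m → ℤ)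
    (h : LocGood d D (Pool.Agent.N692.TS.vec ω d c)) : Exact ω D c := by
  obtain ⟨v, hDv, h1, h2, h3⟩ := h
  obtain ⟨g1, g2, g3⟩ := num_facts (Pool.Agent.N692.TS.vec ω d c) v h3
  have h0 : entry ω c 0 ≠ 0 := by
    intro h0
    apply h2
    have : Pool.Agent.N692.TS.vec ω d c 0 = 0 := h0
    rw [this]
    exact zero_mem _
  have hDmem : (D : 𝓞 K) ∉ v.asIdeal := by
    intro hmem
    apply hDv
    obtain ⟨k, hk⟩ := Nat.dvd_factorial hD le_rfl
    rw [hk, Nat.cast_mul]
    exact v.asIdeal.mul_mem_right _ hmem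
  refine ⟨h0, g1, fun G hG0 hGd hlc => ?_⟩
  have hGv : G.leadingCoeff ∉ v.asIdeal := by
    obtain ⟨k, r, hk⟩ := hlc
    intro hmem
    apply hDmem
    have h5 : (D : 𝓞 K) ^ k ∈ v.asIdeal := by
      rw [hk]
      exact v.asIdeal.mul_mem_right _ hmem
    exact v.isPrime.mem_of_pow_mem k h5
  have hGF : G.natDegree < (num (Pool.Agent.N692.TS.vec ω d c)).natDegree := by rw [g1]; exact hGd
  refine ⟨num_coprime v (num (Pool.Agent.N692.TS.vec ω d c)) g2 g3 G hG0 hGF, ?_⟩
  intro L _ _ _ hL P
  rw [ratMap_eq, numerator_eq]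
  have hfin_none : ((Set.range fun n : ℕ => (rat ((num (Pool.Agent.N692.TS.vec ω d c)).map (algebraMap (𝓞 K) L))
      (G.map (algebraMap (𝓞 K) L)) (algebraMap (𝓞 K) L (entry ω c 0)))^[n] none)).Finite := by
    refine (Set.finite_singleton (none : Option L)).subset ?_
    rintro _ ⟨n, rfl⟩
    exact iterate_none _ _ _ n
  constructor
  · intro hfin
    rcases P with _ | x
    · exact Or.inl rfl
    · right
      refine ⟨x, rfl, ?_⟩
      by_contra hx
      have hinj := rat_injective v (entry ω c 0) h1 h0 (num (Pool.Agent.N692.TS.vec ω d c)) g2 g3 G hGv hGF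
        (by rw [g1]; exact hL) x hx
      exact Set.infinite_range_of_injective hinj hfin
  · rintro (rfl | ⟨x, rfl, hx⟩)
    · exact hfin_none
    · refine ((Set.finite_singleton (some x)).union (Set.finite_singleton none)).subset ?_
      rintro _ ⟨n, rfl⟩
      cases n with
      | zero => exact Or.inl rfl
      | succ n =>
        right
        simp only
        rw [Function.iterate_succ_apply, rat_zero _ _ _ _ hx, iterate_none]
        rfl

end proof

/-- **Theorem.** (1) For all `d ≥ 2`, all number fields `K`, all integral bases of `K`, all `D ≥ 1` and all `β, ε > 0`: for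
all large `q`, all families `y_i`, `i ∈ s`, of vectors of residues modulo `q` with `(d + 2) m` coordinates and Fourier
coefficients at most `q ^ (-β) |s|`, and all integral vectors `c₀`, all but at most `ε |s|` of the vectors `c₀ + y_i` have the
property `Exact`: the preperiodic points of the rational maps `F / (b G)`, `G` arbitrary, in `ℙ¹(L)` are `∞` and the zeros of
`G`, for all number fields `L ⊇ K` of degree not divisible by `d` over `K`.

(2) Examples: short linear recurrences. (3) Examples: the first powers of fixed integers, modulo all but `C X ^ ε` of the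
primes `m ≤ X`. -/
theorem result :
    (∀ (d m : ℕ), 2 ≤ d → ∀ (K : Type) [Field K] [NumberField K] (ω : Module.Basis (Fin m) ℤ (𝓞 K)) (D : ℕ), 0 < D →
      ∀ β ε : ℝ, 0 < β → 0 < ε → ∃ q₀ : ℕ, ∀ (q : ℕ) [NeZero q], q₀ ≤ q →
      ∀ (τ : Type) (s : Finset τ) (y : τ → Fin (d + 2) × Fin m → ZMod q), Flat q ((q : ℝ) ^ (-β)) s y →
      ∀ c₀ : Fin (d + 2) × Fin m → ℤ,
      ({i : τ | i ∈ s ∧ ¬ Exact ω D (vec y c₀ i)}.ncard : ℝ) ≤ ε * s.card) ∧
    (∀ (k : ℕ) (ε : ℝ), 0 < ε → ∃ β : ℝ, 0 < β ∧ ∃ m₀ : ℕ, ∀ (m : ℕ) [Fact m.Prime], m₀ ≤ m →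
      ∀ (ι : Type) [Fintype ι] (c : ι → Fin k → ZMod m) (g : Fin k → (ZMod m)ˣ) (N : ℕ), LinearIndependent (ZMod m) c →
      (∀ i, (m : ℝ) ^ ε ≤ orderOf (g i)) → (∀ i j, i ≠ j → (m : ℝ) ^ ε ≤ orderOf (g i / g j)) → (m : ℝ) ^ ε ≤ N →
      Flat m ((m : ℝ) ^ (-β)) (range N) (fun n j => ∑ i, c j i * (g i : ZMod m) ^ n)) ∧
    (∀ (ι : Type) [Fintype ι] (ε : ℝ), 0 < ε → ∃ β : ℝ, 0 < β ∧ ∀ b : ι → ℕ, (∀ j, 2 ≤ b j) → Function.Injective b →
      ∃ C : ℝ, ∀ X : ℕ, 1 ≤ X → ∀ Q : Finset ℕ,
      (∀ m ∈ Q, m ≤ X ∧ ∃ _ : Fact m.Prime, ¬ ∀ N : ℕ, (m : ℝ) ^ ε ≤ N → ∀ x : ι → ZMod m, (∀ j, x j ≠ 0) →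
        Flat m ((m : ℝ) ^ (-β)) (range N) (fun n j => x j * (b j : ZMod m) ^ n)) →
      (Q.card : ℝ) ≤ C * (X : ℝ) ^ ε) := by
  refine ⟨?_, fun k ε hε => Pool.Agent.Run7.h823.WF.flat_rec' k hε,
    fun ι _ ε hε => Pool.Agent.Run7.h823.WF.flat_pow' ι hε⟩
  intro d m hd K _ _ ω D hD β ε hβ hε
  obtain ⟨q₀, h⟩ := Pool.Agent.Run7.h823.WF.LG.residues ω d hd D hβ ε hε
  refine ⟨q₀, fun q _ hq τ s y hf c₀ => le_trans ?_ (h τ q hq s y c₀ hf)⟩
  apply Pool.Agent.Run7.h823.WF.ncard_mono
  intro i _ hn hg
  exact hn (exact_of_good ω D hD _ hg)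

end Pool.Agent.Results.MP_c076ed_nt.ResidueVectors
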